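import Pool.Agent.Helper22.PG.Mtp

/-! One turn of the game on graphs of polynomial growth: reachability and expansion. -/

namespace Pool.Agent.Helper22.PG.TurnAux

open Finset Pool.Agent.Helper30.Perc

variable {V : Type} [DecidableEq V] {G : SimpleGraph V} [G.LocallyFinite] {d K C : ℕ} {v : ℕ → ℕ}

/-- `x` can be joined to `v₀` by a walk that avoids `B` and has at most `j` edges outside `M` -/
def Rch (G : SimpleGraph V) (v₀ : V) (M B : Finset (Sym2 V)) (j : ℕ) (x : V) : Prop :=
  ∃ P : Finset (Sym2 V), P.card ≤ j ∧ (P : Set (Sym2 V)) ⊆ G.edgeSet ∧ Disjoint P B ∧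
    (SimpleGraph.fromEdgeSet ((M ∪ P : Finset (Sym2 V)) : Set (Sym2 V))).Reachable v₀ x

omit [G.LocallyFinite] in
lemma Rch.mono {v₀ x : V} {M M' B : Finset (Sym2 V)} {j j' : ℕ} (h : Rch G v₀ M B j x)
    (hM : M ⊆ M') (hj : j ≤ j') : Rch G v₀ M' B j' x := by
  obtain ⟨P, h1, h2, h3, h4⟩ := h
  exact ⟨P, h1.trans hj, h2, h3, reach_mono (union_subset_union hM (Subset.refl _)) h4⟩

omit [G.LocallyFinite] in
/-- the edges of a walk -/
lemma walk_reach {y z : V} (w : G.Walk y z) (S : Finset (Sym2 V)) (h : ∀ e ∈ w.edges, e ∈ S) :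
    (SimpleGraph.fromEdgeSet (S : Set (Sym2 V))).Reachable y z := by
  refine ⟨w.transfer _ ?_⟩
  intro e he
  rw [SimpleGraph.edgeSet_fromEdgeSet]
  refine ⟨by exact_mod_cast h e he, ?_⟩
  exact fun hd => SimpleGraph.not_isDiag_of_mem_edgeSet G (w.edges_subset_edgeSet he) hd

omit [G.LocallyFinite] in
lemma Rch.walk {v₀ y z : V} {M B : Finset (Sym2 V)} {j r : ℕ} (h : Rch G v₀ M B j y)
    (w : G.Walk y z) (hw : w.length ≤ r) (hB : ∀ x ∈ w.support, x ∉ vert B) :
    Rch G v₀ M B (j + r) z := by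
  obtain ⟨P, h1, h2, h3, h4⟩ := h
  refine ⟨P ∪ w.edges.toFinset, ?_, ?_, ?_, ?_⟩
  · refine (card_union_le _ _).trans ?_
    have := w.edges.toFinset_card_le
    rw [w.length_edges] at this
    omega
  · rw [coe_union]
    refine Set.union_subset h2 ?_
    intro e he
    exact w.edges_subset_edgeSet (by simpa using he)
  · rw [disjoint_union_left]
    refine ⟨h3, ?_⟩
    rw [Finset.disjoint_left]
    intro e he heB
    rw [List.mem_toFinset] at he
    induction e with
    | h a b =>
      refine hB a (w.fst_mem_support_of_mem_edges he) ?_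
      rw [mem_vert]
      exact ⟨_, heB, by simp⟩
  · refine (reach_mono ?_ h4).trans (walk_reach w _ ?_)
    · exact union_subset_union (Subset.refl _) subset_union_left
    · intro e he
      simp [he]

omit [G.LocallyFinite] in
lemma dist_getVert_le {y z : V} (w : G.Walk y z) (k : ℕ) : G.dist y (w.getVert k) ≤ k := by
  have h1 := SimpleGraph.dist_le (w.take k)
  rw [SimpleGraph.Walk.take_length] at h1
  omega

omit [G.LocallyFinite] in
lemma dist_getVert_getVert {y z : V} (w : G.Walk y z) {i j : ℕ} (hij : i ≤ j) :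
    G.dist (w.getVert i) (w.getVert j) ≤ j - i := by
  have h1 := dist_getVert_le (w.drop i) (j - i)
  rw [SimpleGraph.Walk.drop_getVert] at h1
  have : i + (j - i) = j := by omega
  rwa [this] at h1

lemma mem_bl_getVert (hP : PolyG G d K C v) {y z : V} (w : G.Walk y z) {k r : ℕ} (hk : k ≤ r) :
    w.getVert k ∈ bl G y r := by
  rw [mem_bl hP.conn]
  exact (dist_getVert_le w k).trans hk

/-- a large set contains a vertex from which most of the ball is reachable -/
theorem expand (hP : PolyG G d K C v) (N U : Finset V) (hN : N.Nonempty) (r : ℕ)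
    (B : Finset (Sym2 V)) (hU : ∀ y ∈ N, bl G y r ⊆ U)
    (h : 4 * ((r + 1) * (vert B ∩ U).card) ≤ N.card) :
    ∃ y ∈ N, ∃ N' : Finset V, (∀ z ∈ N', G.dist y z ≤ r) ∧ 3 * v r ≤ 4 * N'.card ∧
      ∀ z ∈ N', ∃ w : G.Walk y z, w.length ≤ r ∧ ∀ x ∈ w.support, x ∉ vert B := by
  classical
  by_contra hcon
  push Not at hcon
  set Gd : V → Finset V := fun y => (bl G y r).filter fun z =>
    ∃ w : G.Walk y z, w.length = G.dist y z ∧ ∀ x ∈ w.support, x ∉ vert B with hGd
  have h1 : ∀ y ∈ N, 4 * (Gd y).card < 3 * v r := by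
    intro y hy
    by_contra h2
    obtain ⟨z, hz, hz'⟩ := hcon y hy (Gd y) (fun z hz => (mem_bl hP.conn y z r).1
      (mem_filter.1 hz).1) (by omega)
    obtain ⟨hz1, w, hw, hw'⟩ := mem_filter.1 hz
    obtain ⟨x, hx, hx'⟩ := hz' w (by rw [hw]; exact (mem_bl hP.conn y z r).1 hz1)
    exact hw' x hx hx'
  have h2 : ∀ y ∈ N, v r < 4 * (bl G y r \ Gd y).card := by
    intro y hy
    have h3 : (bl G y r \ Gd y).card + (Gd y).card = (bl G y r).card :=
      card_sdiff_add_card_eq_card (filter_subset _ _)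
    rw [hP.vol] at h3
    have := h1 y hy
    omega
  set P : Finset (V × V) := N.biUnion fun y => (bl G y r \ Gd y).image fun z => (y, z) with hPd
  have h3 : P.card = ∑ y ∈ N, (bl G y r \ Gd y).card := by
    rw [hPd, card_biUnion]
    · refine sum_congr rfl fun y _ => ?_
      rw [card_image_of_injective]
      intro z z' hz
      exact (Prod.mk.inj hz).2
    · intro y _ y' _ hne
      rw [Function.onFun, Finset.disjoint_left]
      intro z hz hz'
      rw [mem_image] at hz hz'
      obtain ⟨u, -, rfl⟩ := hz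
      obtain ⟨u', -, h4⟩ := hz'
      exact hne (Prod.mk.inj h4).1.symm
  have h4 : N.card * v r < 4 * P.card := by
    rw [h3, mul_sum, ← smul_eq_mul, ← sum_const]
    exact sum_lt_sum_of_nonempty hN h2
  have h5 := geo hP r (range (r + 1)) (fun x => if x ∈ vert B ∩ U then 1 else 0)
    (fun x => by positivity) (vert B ∩ U) (fun x hx => if_neg hx) P ?_ 1 ?_
  · rw [mul_one, card_range] at h5
    simp only [sum_ite_mem, inter_self, sum_const, nsmul_eq_mul, mul_one] at h5
    have h6 : P.card ≤ (r + 1) * v r * (vert B ∩ U).card := by exact_mod_cast h5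
    have h7 : 4 * P.card ≤ N.card * v r := by
      calc 4 * P.card ≤ 4 * ((r + 1) * v r * (vert B ∩ U).card) := by omega
        _ = 4 * ((r + 1) * (vert B ∩ U).card) * v r := by ring
        _ ≤ _ := Nat.mul_le_mul_right _ h
    omega
  · intro z hz
    rw [hPd, mem_biUnion] at hz
    obtain ⟨y, -, hz⟩ := hz
    rw [mem_image] at hz
    obtain ⟨u, hu, rfl⟩ := hz
    exact (mem_bl hP.conn _ _ _).1 (mem_sdiff.1 hu).1
  · intro z hz w hw
    rw [hPd, mem_biUnion] at hz
    obtain ⟨y, hy, hz⟩ := hz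
    rw [mem_image] at hz
    obtain ⟨u, hu, rfl⟩ := hz
    rw [mem_sdiff] at hu
    simp only at w hw
    have h6 : ∃ x ∈ w.support, x ∈ vert B := by
      by_contra h7
      push Not at h7
      exact hu.2 (mem_filter.2 ⟨hu.1, w, hw, h7⟩)
    obtain ⟨x, hx, hxB⟩ := h6
    rw [SimpleGraph.Walk.mem_support_iff_exists_getVert] at hx
    obtain ⟨k, rfl, hk⟩ := hx
    have hkr : k ≤ r := by
      have := (mem_bl hP.conn y u r).1 hu.1
      omega
    have h8 : w.getVert k ∈ vert B ∩ U :=
      mem_inter.2 ⟨hxB, hU y hy (mem_bl_getVert hP w hkr)⟩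
    have h9 : (if w.getVert k ∈ vert B ∩ U then (1 : ℝ) else 0) ≤
        ∑ k ∈ range (r + 1), if w.getVert k ∈ vert B ∩ U then (1 : ℝ) else 0 :=
      single_le_sum (f := fun k => if w.getVert k ∈ vert B ∩ U then (1 : ℝ) else 0)
        (fun i _ => by positivity) (mem_range.2 (by omega))
    rwa [if_pos h8] at h9

end Pool.Agent.Helper22.PG.TurnAux
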