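import Pool.Agent.Helper56.PG.TurnA

/-! Repeated expansion, and growth from the hung blocks. -/

namespace Pool.Agent.Helper22.PG.TurnAux

open Finset Pool.Agent.Helper30.Perc

variable {V : Type} [DecidableEq V] {G : SimpleGraph V} [G.LocallyFinite] {d K C : ℕ} {v : ℕ → ℕ}

lemma v_pos (hP : PolyG G d K C v) (r : ℕ) : 0 < v r := by
  have : Nonempty V := by
    have := hP.inf
    exact inferInstance
  obtain ⟨x⟩ := this
  rw [← hP.vol x r, card_pos]
  exact ⟨x, (mem_bl hP.conn x x r).2 (by simp)⟩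

lemma double_step (hP : PolyG G d K C v) (v₀ c : V) (M B : Finset (Sym2 V)) (U : Finset V)
    (e r' r A : ℕ) (y : V) (N : Finset V)
    (hN1 : ∀ x ∈ N, G.dist y x ≤ r') (hN2 : 3 * v r' ≤ 4 * N.card)
    (hN3 : ∀ x ∈ N, Rch G v₀ M B e x) (hr : r ≤ 2 * r')
    (hU : ∀ x, G.dist c x ≤ A → x ∈ U) (hA : G.dist c y + r' + r ≤ A)
    (hv : 16 * ((2 * r' + 1) * (vert B ∩ U).card) ≤ 3 * v r') :
    ∃ (y' : V) (N' : Finset V), G.dist y y' ≤ r' ∧ (∀ x ∈ N', G.dist y' x ≤ r) ∧
      3 * v r ≤ 4 * N'.card ∧ ∀ x ∈ N', Rch G v₀ M B (e + r) x := by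
  have hN : N.Nonempty := by
    rw [← card_pos]
    have := v_pos hP r'
    omega
  have h1 : 4 * ((r + 1) * (vert B ∩ U).card) ≤ N.card := by
    have h2 : (r + 1) * (vert B ∩ U).card ≤ (2 * r' + 1) * (vert B ∩ U).card :=
      Nat.mul_le_mul_right _ (by omega)
    omega
  have hU' : ∀ x ∈ N, bl G x r ⊆ U := by
    intro x hx z hz
    rw [mem_bl hP.conn] at hz
    refine hU z ?_
    have h5 := hP.conn.dist_triangle (u := c) (v := y) (w := z)
    have h6 := hP.conn.dist_triangle (u := y) (v := x) (w := z)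
    have := hN1 x hx
    omega
  obtain ⟨y', hy', N', h2, h3, h4⟩ := expand hP N U hN r B hU' h1
  refine ⟨y', N', hN1 y' hy', h2, h3, fun x hx => ?_⟩
  obtain ⟨w, hw, hw'⟩ := h4 x hx
  exact (hN3 y' hy').walk w hw hw'

/-- repeated expansion, doubling the radius each time -/
theorem double (hP : PolyG G d K C v) (v₀ c : V) (M B : Finset (Sym2 V)) (U : Finset V)
    (e r₀ ρ A : ℕ) (hr₀ : 1 ≤ r₀) (y₀ : V) (N₀ : Finset V)
    (hN1 : ∀ x ∈ N₀, G.dist y₀ x ≤ r₀) (hN2 : 3 * v r₀ ≤ 4 * N₀.card)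
    (hN3 : ∀ x ∈ N₀, Rch G v₀ M B (e + r₀) x)
    (hU : ∀ x, G.dist c x ≤ A → x ∈ U) (hA : G.dist c y₀ + 5 * ρ ≤ A)
    (hv : ∀ r, r₀ ≤ r → r ≤ ρ → 16 * ((2 * r + 1) * (vert B ∩ U).card) ≤ 3 * v r) :
    ∀ r, r₀ ≤ r → r ≤ ρ → ∃ (y : V) (N : Finset V), (∀ x ∈ N, G.dist y x ≤ r) ∧
      3 * v r ≤ 4 * N.card ∧ (∀ x ∈ N, Rch G v₀ M B (e + 4 * r) x) ∧ G.dist y₀ y ≤ 3 * r := by
  intro r
  induction r using Nat.strong_induction_on with
  | _ r ih =>
    intro h1 h2
    rcases Nat.eq_or_lt_of_le h1 with h3 | h3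
    · subst h3
      exact ⟨y₀, N₀, hN1, hN2, fun x hx => (hN3 x hx).mono (Subset.refl _) (by omega), by simp⟩
    · by_cases h4 : r ≤ 2 * r₀
      · obtain ⟨y', N', k1, k2, k3, k4⟩ := double_step hP v₀ c M B U (e + r₀) r₀ r A y₀ N₀ hN1 hN2
          hN3 h4 hU (by omega) (hv r₀ le_rfl (by omega))
        exact ⟨y', N', k2, k3, fun x hx => (k4 x hx).mono (Subset.refl _) (by omega), by omega⟩
      · obtain ⟨y, N, g1, g2, g3, g4⟩ := ih ((r + 1) / 2) (by omega) (by omega) (by omega)
        have h5 := hP.conn.dist_triangle (u := c) (v := y₀) (w := y)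
        obtain ⟨y', N', k1, k2, k3, k4⟩ := double_step hP v₀ c M B U (e + 4 * ((r + 1) / 2))
          ((r + 1) / 2) r A y N g1 g2 g3 (by omega) hU (by omega) (hv _ (by omega) (by omega))
        have h6 := hP.conn.dist_triangle (u := y₀) (v := y) (w := y')
        exact ⟨y', N', k2, k3, fun x hx => (k4 x hx).mono (Subset.refl _) (by omega), by omega⟩

lemma exists_clos' (M : Finset (Sym2 V)) (A : Finset V) : ∃ A' : Finset V, A ⊆ A' ∧
    (∀ a b, s(a, b) ∈ M → a ∈ A' → b ∈ A') ∧ A' ⊆ A ∪ vert M ∧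
    ∀ x ∈ A', ∃ a ∈ A, (SimpleGraph.fromEdgeSet (M : Set (Sym2 V))).Reachable a x := by
  classical
  refine ⟨(A ∪ vert M).filter fun x =>
    ∃ a ∈ A, (SimpleGraph.fromEdgeSet (M : Set (Sym2 V))).Reachable a x, ?_, ?_, ?_, ?_⟩
  · intro a ha
    rw [mem_filter, mem_union]
    exact ⟨Or.inl ha, a, ha, SimpleGraph.Reachable.refl a⟩
  · intro a b hab ha
    rw [mem_filter] at ha ⊢
    obtain ⟨-, c, hc, hca⟩ := ha
    refine ⟨mem_union_right _ ?_, c, hc, ?_⟩
    · rw [mem_vert]
      exact ⟨_, hab, by simp⟩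
    · by_cases h : a = b
      · exact h ▸ hca
      · exact hca.trans (SimpleGraph.Adj.reachable ((fes_adj M a b).2 ⟨hab, h⟩))
  · exact filter_subset _ _
  · intro x hx
    exact (mem_filter.1 hx).2

/-- growth of the set that can be reached with few new edges -/
theorem grow (hconn : G.Connected) (hd : ∀ x, (G.neighborFinset x).card ≤ d) (o : V)
    (M B : Finset (Sym2 V))
    (Γ : Finset V) (hΓ : ∀ x ∈ Γ, (SimpleGraph.fromEdgeSet (M : Set (Sym2 V))).Reachable o x)
    (R b g J : ℕ) (hM : ∀ x ∈ vert M, ∃ a ∈ Γ, G.dist a x ≤ R)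
    (hB : ∀ S : Finset (Sym2 V), S ⊆ B → (∀ e ∈ S, ∃ x ∈ e, ∃ a ∈ Γ, G.dist a x ≤ R + J) →
      S.card ≤ b)
    (hcut : ∀ W : Finset V, Γ ⊆ W → (∀ a b, s(a, b) ∈ M → a ∈ W → b ∈ W) → b + g ≤ cut G W) :
    ∀ j ≤ J, ∃ N : Finset V, Γ ⊆ N ∧ (∀ a b, s(a, b) ∈ M → a ∈ N → b ∈ N) ∧
      (∀ x ∈ N, ∃ a ∈ Γ, G.dist a x ≤ R + j) ∧ (∀ x ∈ N, Rch G o M B j x) ∧
      j * g ≤ d * N.card := by
  intro j
  induction j with
  | zero =>
    intro _
    obtain ⟨N, h1, h2, h3, h4⟩ := exists_clos' M Γ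
    refine ⟨N, h1, h2, ?_, ?_, by simp⟩
    · intro x hx
      rcases mem_union.1 (h3 hx) with h | h
      · exact ⟨x, h, by simp⟩
      · obtain ⟨a, ha, ha'⟩ := hM x h
        exact ⟨a, ha, by omega⟩
    · intro x hx
      obtain ⟨a, ha, ha'⟩ := h4 x hx
      refine ⟨∅, by simp, by simp, by simp, ?_⟩
      rw [union_empty]
      exact (hΓ a ha).trans ha'
  | succ j ih =>
    intro hj
    obtain ⟨N, n1, n2, n3, n4, n5⟩ := ih (by omega)
    obtain ⟨N', h1, h2, h3, h4⟩ := exists_clos' M (N ∪ N.biUnion fun a =>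
      (G.neighborFinset a).filter fun b => s(a, b) ∉ B)
    have hNN : N ⊆ N' := subset_union_left.trans h1
    refine ⟨N', n1.trans hNN, h2, ?_, ?_, ?_⟩
    · intro x hx
      rcases mem_union.1 (h3 hx) with h | h
      · rcases mem_union.1 h with h | h
        · obtain ⟨a, ha, ha'⟩ := n3 x h
          exact ⟨a, ha, by omega⟩
        · rw [mem_biUnion] at h
          obtain ⟨c, hc, hcx⟩ := h
          rw [mem_filter, SimpleGraph.mem_neighborFinset] at hcx
          obtain ⟨a, ha, ha'⟩ := n3 c hc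
          refine ⟨a, ha, ?_⟩
          have h5 := hconn.dist_triangle (u := a) (v := c) (w := x)
          have h6 : G.dist c x = 1 := SimpleGraph.dist_eq_one_iff_adj.2 hcx.1
          omega
      · obtain ⟨a, ha, ha'⟩ := hM x h
        exact ⟨a, ha, by omega⟩
    · intro x hx
      obtain ⟨a, ha, hax⟩ := h4 x hx
      rw [mem_union, mem_biUnion] at ha
      rcases ha with ha | ⟨c, hc, ha⟩
      · obtain ⟨P, hP1, hP2, hP3, hP4⟩ := n4 a ha
        exact ⟨P, by omega, hP2, hP3, hP4.trans (reach_mono subset_union_left hax)⟩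
      · rw [mem_filter, SimpleGraph.mem_neighborFinset] at ha
        obtain ⟨P, hP1, hP2, hP3, hP4⟩ := n4 c hc
        refine ⟨insert s(c, a) P, ?_, ?_, ?_, ?_⟩
        · exact (card_insert_le _ _).trans (by omega)
        · rw [coe_insert]
          exact Set.insert_subset (by simpa using ha.1) hP2
        · rw [disjoint_insert_left]
          exact ⟨ha.2, hP3⟩
        · refine (reach_mono ?_ hP4).trans ?_
          · exact union_subset_union (Subset.refl _) (subset_insert _ _)
          · have h5 : (SimpleGraph.fromEdgeSet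
                ((M ∪ insert s(c, a) P : Finset (Sym2 V)) : Set (Sym2 V))).Reachable c a :=
              SimpleGraph.Adj.reachable ((fes_adj _ _ _).2 ⟨by simp, ha.1.ne⟩)
            exact h5.trans (reach_mono subset_union_left hax)
    · have h4 : (bdE G N \ B).card ≤ (N' \ N).card * d := by
        calc (bdE G N \ B).card ≤ ((N' \ N).biUnion fun b =>
              (G.neighborFinset b).image fun a => s(a, b)).card := by
              refine card_le_card ?_
              intro e he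
              rw [mem_sdiff, mem_bdE] at he
              obtain ⟨⟨a, ha, b, hb, hab, rfl⟩, heB⟩ := he
              rw [mem_biUnion]
              refine ⟨b, ?_, ?_⟩
              · rw [mem_sdiff]
                refine ⟨h1 ?_, hb⟩
                rw [mem_union, mem_biUnion]
                refine Or.inr ⟨a, ha, ?_⟩
                rw [mem_filter]
                exact ⟨by simpa using hab, heB⟩
              · rw [mem_image]
                exact ⟨a, by simpa using hab.symm, rfl⟩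
          _ ≤ ∑ b ∈ N' \ N, ((G.neighborFinset b).image fun a => s(a, b)).card := card_biUnion_le
          _ ≤ ∑ _b ∈ N' \ N, d := sum_le_sum fun b _ => card_image_le.trans (hd b)
          _ = _ := by rw [sum_const, smul_eq_mul]
      have h5 : (bdE G N).card ≤ (bdE G N \ B).card + b := by
        rw [← card_sdiff_add_card_inter (bdE G N) B]
        refine Nat.add_le_add_left (hB _ inter_subset_right ?_) _
        intro e he
        rw [mem_inter, mem_bdE] at he
        obtain ⟨⟨x, hx, b, hb, hab, rfl⟩, heB⟩ := he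
        obtain ⟨a, ha, ha'⟩ := n3 x hx
        exact ⟨x, by simp, a, ha, by omega⟩
      rw [card_bdE] at h5
      have h6 : (N' \ N).card + N.card = N'.card := card_sdiff_add_card_eq_card hNN
      have h7 : d * N'.card = (N' \ N).card * d + d * N.card := by rw [← h6]; ring
      have h8 := hcut N n1 n2
      have h9 : (j + 1) * g = j * g + g := by ring
      omega

end Pool.Agent.Helper22.PG.TurnAux
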