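import Pool.Agent.Helper56.PG.TurnB

/-! Choice of a geodesic that stays away from the claimed edges. -/

namespace Pool.Agent.Helper22.PG.TurnAux

open Finset Pool.Agent.Helper30.Perc

variable {V : Type} [DecidableEq V] {G : SimpleGraph V} [G.LocallyFinite] {d K C : ℕ} {v : ℕ → ℕ}

lemma sum_near (hP : PolyG G d K C v) (X Z : Finset V) (s : ℕ) :
    ∑ x ∈ X, (Z.filter fun z => G.dist z x ≤ s).card ≤ Z.card * v s := by
  have h1 : ∑ x ∈ X, (Z.filter fun z => G.dist z x ≤ s).card =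
      ∑ z ∈ Z, (X.filter fun x => G.dist z x ≤ s).card := by
    simp only [card_filter]
    exact sum_comm
  rw [h1, ← smul_eq_mul, ← sum_const]
  refine sum_le_sum fun z _ => ?_
  rw [← hP.vol z s]
  refine card_le_card fun x hx => ?_
  exact (mem_bl hP.conn z x s).2 (mem_filter.1 hx).2

omit [G.LocallyFinite] in
lemma near_many (hconn : G.Connected) {y z : V} (γ : G.Walk y z) (n r : ℕ) (hn : 2 * r ≤ n) (x : V)
    (k₀ : ℕ) (hk₀ : k₀ ≤ n) (hx : G.dist x (γ.getVert k₀) ≤ r) :
    r ≤ ((range (n + 1)).filter fun k => G.dist x (γ.getVert k) ≤ 2 * r).card := by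
  by_cases h : r ≤ k₀
  · have h1 : Icc (k₀ - r) k₀ ⊆ (range (n + 1)).filter fun k =>
        G.dist x (γ.getVert k) ≤ 2 * r := by
      intro k hk
      rw [mem_Icc] at hk
      rw [mem_filter, mem_range]
      refine ⟨by omega, ?_⟩
      have h2 := hconn.dist_triangle (u := x) (v := γ.getVert k₀) (w := γ.getVert k)
      have h3 := dist_getVert_getVert γ hk.2
      rw [SimpleGraph.dist_comm] at h3
      omega
    have h2 := card_le_card h1
    rw [Nat.card_Icc] at h2
    omega
  · have h1 : Icc k₀ (k₀ + r) ⊆ (range (n + 1)).filter fun k =>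
        G.dist x (γ.getVert k) ≤ 2 * r := by
      intro k hk
      rw [mem_Icc] at hk
      rw [mem_filter, mem_range]
      refine ⟨by omega, ?_⟩
      have h2 := hconn.dist_triangle (u := x) (v := γ.getVert k₀) (w := γ.getVert k)
      have h3 := dist_getVert_getVert γ hk.1
      omega
    have h2 := card_le_card h1
    rw [Nat.card_Icc] at h2
    omega

theorem choose_geo (hP : PolyG G d K C v) (N : Finset V) (y a : V) (ρ n u R r₁ b L : ℕ)
    (Z : Finset V) (hN1 : ∀ x ∈ N, G.dist y x ≤ ρ) (hN2 : 3 * v ρ ≤ 4 * N.card)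
    (hZ : Z.card ≤ L) (hya : G.dist y a + 2 * ρ ≤ u) (hn : 2 * r₁ ≤ n)
    (hlen : n + 2 * ρ ≤ G.dist y a)
    (hc : 4 * ((n + 1) * v u * (L * (v R * (r₁ * b) + v (2 * r₁)))) <
      3 * v ρ * v ρ * (r₁ * b)) :
    ∃ y₁ ∈ N, ∃ y₂, G.dist a y₂ ≤ ρ ∧ ∃ γ : G.Walk y₁ y₂, γ.length = G.dist y₁ y₂ ∧
      n ≤ γ.length ∧ (∀ k ≤ n, ∀ z ∈ Z, R < G.dist z (γ.getVert k)) ∧
      (Z.filter fun z => ∃ k ≤ n, G.dist z (γ.getVert k) ≤ r₁).card < b := by
  classical
  by_contra hcon
  push Not at hcon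
  have hdist : ∀ y₁ ∈ N, ∀ y₂, G.dist a y₂ ≤ ρ → n ≤ G.dist y₁ y₂ ∧ G.dist y₁ y₂ ≤ u := by
    intro y₁ h1 y₂ h2
    have h3 := hN1 y₁ h1
    have h4 := hP.conn.dist_triangle (u := y) (v := y₁) (w := a)
    have h5 := hP.conn.dist_triangle (u := y₁) (v := y₂) (w := a)
    have h6 := hP.conn.dist_triangle (u := y₁) (v := y) (w := y₂)
    have h7 := hP.conn.dist_triangle (u := y) (v := a) (w := y₂)
    rw [SimpleGraph.dist_comm (u := y₂) (v := a)] at h5
    rw [SimpleGraph.dist_comm (u := y₁) (v := y)] at h6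
    omega
  set c : V → ℕ := fun x => (Z.filter fun z => G.dist z x ≤ R).card * (r₁ * b) +
    (Z.filter fun z => G.dist z x ≤ 2 * r₁).card with hcd
  set X : Finset V := Z.biUnion fun z => bl G z (R + 2 * r₁) with hXd
  have hX : ∀ x, x ∉ X → ((c x : ℕ) : ℝ) = 0 := by
    intro x hx
    have hx' : ∀ z ∈ Z, R + 2 * r₁ < G.dist z x := by
      intro z hz
      by_contra h
      exact hx (mem_biUnion.2 ⟨z, hz, (mem_bl hP.conn z x _).2 (by omega)⟩)
    have h1 : (Z.filter fun z => G.dist z x ≤ R) = ∅ := by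
      rw [filter_eq_empty_iff]
      intro z hz
      have := hx' z hz
      omega
    have h2 : (Z.filter fun z => G.dist z x ≤ 2 * r₁) = ∅ := by
      rw [filter_eq_empty_iff]
      intro z hz
      have := hx' z hz
      omega
    rw [hcd]
    simp only
    rw [h1, h2]
    simp
  have key := geo hP u (range (n + 1)) (fun x => ((c x : ℕ) : ℝ)) (fun x => Nat.cast_nonneg _) X hX
    (N ×ˢ bl G a ρ) ?_ ((r₁ * b : ℕ) : ℝ) ?_
  · rw [card_range, card_product, hP.vol] at key
    have h1 : N.card * v ρ * (r₁ * b) ≤ (n + 1) * v u * ∑ x ∈ X, c x := by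
      exact_mod_cast key
    have h2 : ∑ x ∈ X, c x ≤ L * (v R * (r₁ * b) + v (2 * r₁)) := by
      have h3 := sum_near hP X Z R
      have h4 := sum_near hP X Z (2 * r₁)
      calc ∑ x ∈ X, c x = (∑ x ∈ X, (Z.filter fun z => G.dist z x ≤ R).card) * (r₁ * b) +
            ∑ x ∈ X, (Z.filter fun z => G.dist z x ≤ 2 * r₁).card := by
              rw [sum_mul, ← sum_add_distrib]
        _ ≤ Z.card * v R * (r₁ * b) + Z.card * v (2 * r₁) :=
            Nat.add_le_add (Nat.mul_le_mul_right _ h3) h4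
        _ = Z.card * (v R * (r₁ * b) + v (2 * r₁)) := by ring
        _ ≤ _ := Nat.mul_le_mul_right _ hZ
    have h5 : 3 * v ρ * v ρ * (r₁ * b) ≤ 4 * (N.card * v ρ * (r₁ * b)) := by
      calc 3 * v ρ * v ρ * (r₁ * b) = 3 * v ρ * (v ρ * (r₁ * b)) := by ring
        _ ≤ 4 * N.card * (v ρ * (r₁ * b)) := Nat.mul_le_mul_right _ hN2
        _ = _ := by ring
    have h6 : (n + 1) * v u * ∑ x ∈ X, c x ≤
        (n + 1) * v u * (L * (v R * (r₁ * b) + v (2 * r₁))) := Nat.mul_le_mul_left _ h2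
    omega
  · intro z hz
    rw [mem_product, mem_bl hP.conn] at hz
    exact (hdist z.1 hz.1 z.2 hz.2).2
  · rintro ⟨y₁, y₂⟩ hz w hw
    rw [mem_product, mem_bl hP.conn] at hz
    simp only at hz w hw
    have h1 := hcon y₁ hz.1 y₂ hz.2 w hw (by rw [hw]; exact (hdist y₁ hz.1 y₂ hz.2).1)
    by_cases h2 : ∀ k ≤ n, ∀ z ∈ Z, R < G.dist z (w.getVert k)
    · have h3 := h1 h2
      set Z₁ := Z.filter fun z => ∃ k ≤ n, G.dist z (w.getVert k) ≤ r₁ with hZ₁
      have h4 : r₁ * b ≤ ∑ k ∈ range (n + 1),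
          (Z.filter fun z => G.dist z (w.getVert k) ≤ 2 * r₁).card := by
        calc r₁ * b ≤ r₁ * Z₁.card := Nat.mul_le_mul_left _ h3
          _ = ∑ _z ∈ Z₁, r₁ := by rw [sum_const, smul_eq_mul, mul_comm]
          _ ≤ ∑ z ∈ Z₁, ((range (n + 1)).filter fun k =>
              G.dist z (w.getVert k) ≤ 2 * r₁).card := by
              refine sum_le_sum fun z hz => ?_
              obtain ⟨k, hk, hk'⟩ := (mem_filter.1 hz).2
              exact near_many hP.conn w n r₁ hn z k hk hk'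
          _ ≤ ∑ z ∈ Z, ((range (n + 1)).filter fun k =>
              G.dist z (w.getVert k) ≤ 2 * r₁).card :=
              sum_le_sum_of_subset (filter_subset _ _)
          _ = _ := by
              simp only [card_filter]
              exact sum_comm
      have h5 : r₁ * b ≤ ∑ k ∈ range (n + 1), c (w.getVert k) := by
        refine h4.trans (sum_le_sum fun k _ => ?_)
        rw [hcd]
        exact Nat.le_add_left _ _
      exact_mod_cast h5
    · push Not at h2
      obtain ⟨k, hk, z, hz, hkz⟩ := h2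
      have h3 : r₁ * b ≤ c (w.getVert k) := by
        have h4 : 1 ≤ (Z.filter fun z => G.dist z (w.getVert k) ≤ R).card :=
          card_pos.2 ⟨z, mem_filter.2 ⟨hz, hkz⟩⟩
        have h5 := Nat.mul_le_mul_right (r₁ * b) h4
        rw [hcd]
        simp only
        omega
      have h4 : c (w.getVert k) ≤ ∑ k ∈ range (n + 1), c (w.getVert k) :=
        single_le_sum (f := fun k => c (w.getVert k)) (fun _ _ => Nat.zero_le _)
          (mem_range.2 (by omega))
      exact_mod_cast h3.trans h4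

end Pool.Agent.Helper22.PG.TurnAux
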