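import Pool.Agent.Helper56.PG.TurnC

/-! One turn of the game, for explicitly given parameters. -/

namespace Pool.Agent.Helper22.PG.TurnAux

open Finset Pool.Agent.Helper30.Perc

variable {V : Type} [DecidableEq V] {G : SimpleGraph V} [G.LocallyFinite] {d K C : ℕ} {v : ℕ → ℕ}

/-- Maker is live at `y` -/
def Live (G : SimpleGraph V) (v₀ : V) (w ρ Δ : ℕ) (M B : Finset (Sym2 V)) (y : V) : Prop :=
  ∃ N : Finset V, (∀ x ∈ N, G.dist y x ≤ ρ) ∧ 3 * w ≤ 4 * N.card ∧ ∀ x ∈ N, Rch G v₀ M B Δ x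

/-- edges of a piece of a walk -/
def pathE {y z : V} (γ : G.Walk y z) (i n : ℕ) : Finset (Sym2 V) :=
  (Ico i n).image fun k => s(γ.getVert k, γ.getVert (k + 1))

lemma pathE_card {y z : V} (γ : G.Walk y z) (i n : ℕ) : (pathE γ i n).card ≤ n - i := by
  refine card_image_le.trans ?_
  rw [Nat.card_Ico]

lemma pathE_edge {y z : V} (γ : G.Walk y z) (i n : ℕ) (hn : n ≤ γ.length) :
    (pathE γ i n : Set (Sym2 V)) ⊆ G.edgeSet := by
  intro e he
  rw [mem_coe, pathE, mem_image] at he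
  obtain ⟨k, hk, rfl⟩ := he
  rw [mem_Ico] at hk
  exact γ.adj_getVert_succ (by omega)

lemma pathE_vert {y z : V} (γ : G.Walk y z) (i n : ℕ) (e : Sym2 V) (he : e ∈ pathE γ i n) (x : V)
    (hx : x ∈ e) : ∃ k, i ≤ k ∧ k ≤ n ∧ x = γ.getVert k := by
  rw [pathE, mem_image] at he
  obtain ⟨k, hk, rfl⟩ := he
  rw [mem_Ico] at hk
  rw [Sym2.mem_iff] at hx
  rcases hx with h | h
  · exact ⟨k, by omega, by omega, h⟩
  · exact ⟨k + 1, by omega, by omega, h⟩

lemma pathE_reach {y z : V} (γ : G.Walk y z) (i n : ℕ) (hn : n ≤ γ.length) (S : Finset (Sym2 V))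
    (hS : pathE γ i n ⊆ S) (k : ℕ) (h1 : i ≤ k) (h2 : k ≤ n) :
    (SimpleGraph.fromEdgeSet (S : Set (Sym2 V))).Reachable (γ.getVert i) (γ.getVert k) := by
  induction k, h1 using Nat.le_induction with
  | base => exact SimpleGraph.Reachable.refl _
  | succ k hk ih =>
    refine (ih (by omega)).trans (SimpleGraph.Adj.reachable ((fes_adj _ _ _).2 ⟨?_, ?_⟩))
    · refine hS ?_
      rw [pathE, mem_image]
      exact ⟨k, mem_Ico.2 ⟨hk, by omega⟩, rfl⟩
    · exact (γ.adj_getVert_succ (by omega)).ne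

lemma pathE_mono {y z : V} (γ : G.Walk y z) {i i' n : ℕ} (h : i' ≤ i) :
    pathE γ i n ⊆ pathE γ i' n :=
  image_subset_image (Ico_subset_Ico_left h)

lemma exists_adj (hP : PolyG G d K C v) (x : V) : ∃ y, G.Adj x y := by
  have := hP.inf
  obtain ⟨y, hy⟩ := exists_ne x
  obtain ⟨w⟩ := hP.conn.preconnected x y
  cases w with
  | nil => exact absurd rfl hy
  | cons h _ => exact ⟨_, h⟩

lemma d_pos (hP : PolyG G d K C v) : 0 < d := by
  have := hP.inf
  obtain ⟨x⟩ : Nonempty V := inferInstance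
  obtain ⟨y, hy⟩ := exists_adj hP x
  refine lt_of_lt_of_le ?_ (hP.deg x)
  rw [card_pos]
  exact ⟨y, by simpa using hy⟩

lemma edges_inf (hP : PolyG G d K C v) : G.edgeSet.Infinite := by
  intro hfin
  have := hP.inf
  have h1 : (Set.univ : Set V) ⊆ (vert hfin.toFinset : Finset V) := by
    intro x _
    obtain ⟨y, hy⟩ := exists_adj hP x
    rw [mem_coe, mem_vert]
    refine ⟨s(x, y), ?_, by simp⟩
    rw [Set.Finite.mem_toFinset]
    exact hy
  exact Set.infinite_univ ((Finset.finite_toSet _).subset h1)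

lemma vert_union (M B : Finset (Sym2 V)) : vert (M ∪ B) = vert M ∪ vert B := by
  unfold vert
  rw [union_biUnion]

omit [DecidableEq V] [G.LocallyFinite] in
lemma dist_getVert_end {y z : V} (γ : G.Walk y z) (k : ℕ) :
    G.dist (γ.getVert k) z ≤ γ.length - k := by
  have h1 := SimpleGraph.dist_le (γ.drop k)
  rwa [SimpleGraph.Walk.drop_length] at h1

theorem turn_core (hP : PolyG G d K C v) {ℓ s R C' : ℕ} (hS : StaticHyp G ℓ s R C') (v₀ : V)
    (p q m i₀ J r₀ r₁ ρ Δ b g L T : ℕ)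
    (c1 : Δ + m * s ≤ p) (c2 : 1 ≤ m) (c2' : i₀ ≤ m) (hr₀ : 1 ≤ r₀) (hr₀ρ : r₀ ≤ ρ)
    (c3 : 4 * ((m * ℓ + 1) * v (5 * p) * (L * (v (R + 2) * (r₁ * b) + v (2 * r₁)))) <
      3 * v ρ * v ρ * (r₁ * b))
    (c4 : q + d * b + g ≤ (m - i₀) * C')
    (c5 : 4 * ((r₀ + 1) * (b + 2 * q)) * d ≤ J * g)
    (c6 : R + J + r₀ ≤ r₁) (c6' : 2 * r₁ ≤ m * ℓ)
    (c7 : ∀ r, r₀ ≤ r → r ≤ ρ → 16 * ((2 * r + 1) * (L + 2 * q)) ≤ 3 * v r)
    (c9 : J + 4 * ρ ≤ Δ)
    (c10 : T * (R + J + 6 * ρ) + p ≤ T * (i₀ * ℓ))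
    (c11 : 16 * (m * ℓ + R + J + 4 * ρ) ≤ p)
    (M B : Finset (Sym2 V)) (y a : V) (hpos : Pos G M B) (hlive : Live G v₀ (v ρ) ρ Δ M B y)
    (hL : (vert (M ∪ B) ∩ bl G y (8 * p)).card ≤ L)
    (hya1 : p ≤ 8 * G.dist y a) (hya2 : G.dist y a ≤ 4 * p) :
    Step G v₀ p q M B fun M' B' => ∃ y', Live G v₀ (v ρ) ρ Δ M' B' y' ∧
      T * G.dist y' a + p ≤ T * G.dist y a ∧ 16 * G.dist y y' ≤ p := by
  classical
  obtain ⟨N, hN1, hN2, hN3⟩ := hlive
  obtain ⟨hℓ, -, hS3⟩ := hS
  set Z := vert (M ∪ B) ∩ bl G y (8 * p) with hZd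
  set n := m * ℓ with hn
  have hconn := hP.conn
  have hn1 : 1 ≤ n := by
    have := Nat.mul_le_mul c2 hℓ
    omega
  obtain ⟨y₁, hy₁, y₂, hy₂, γ, hγ, hlen, hfar, hfew⟩ := choose_geo hP N y a ρ n (5 * p) (R + 2)
    r₁ b L Z hN1 hN2 hL (by omega) c6' (by omega) c3
  obtain ⟨E, hE1, hE2⟩ := hS3 y₁ y₂ γ hγ m hlen
  have hyγ : ∀ k ≤ n, G.dist y (γ.getVert k) ≤ ρ + n := by
    intro k hk
    have h1 := hconn.dist_triangle (u := y) (v := y₁) (w := γ.getVert k)
    have h2 := dist_getVert_le γ k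
    have h3 := hN1 y₁ hy₁
    omega
  have hfar' : ∀ k ≤ n, ∀ x, G.dist (γ.getVert k) x ≤ R → x ∉ vert (M ∪ B) := by
    intro k hk x hx hx'
    have h1 := hconn.dist_triangle (u := y) (v := γ.getVert k) (w := x)
    have h2 := hyγ k hk
    have h3 : x ∈ Z := mem_inter.2 ⟨hx', (mem_bl hconn y x _).2 (by omega)⟩
    have h4 := hfar k hk x h3
    rw [SimpleGraph.dist_comm] at h4
    omega
  obtain ⟨P₁, hP1, hP2, hP3, hP4⟩ := hN3 y₁ hy₁
  set X₀ : Finset (Sym2 V) := (P₁ \ M) ∪ (pathE γ 0 n ∪ (range m).biUnion E) with hX₀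
  have hX₀c : X₀.card ≤ p := by
    have h1 : ((range m).biUnion E).card + n ≤ m * s := by
      have h2 : ((range m).biUnion E).card ≤ ∑ j ∈ range m, (E j).card := card_biUnion_le
      have h3 : ∑ j ∈ range m, ((E j).card + ℓ) ≤ ∑ _j ∈ range m, s :=
        sum_le_sum fun j hj => (hE1 j (mem_range.1 hj)).2.1
      rw [sum_add_distrib, sum_const, sum_const, card_range, smul_eq_mul, smul_eq_mul] at h3
      omega
    have h2 := pathE_card γ 0 n
    have h3 : (P₁ \ M).card ≤ Δ := (card_le_card sdiff_subset).trans hP1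
    have h4 : X₀.card ≤ (P₁ \ M).card + ((pathE γ 0 n).card + ((range m).biUnion E).card) :=
      (card_union_le _ _).trans (Nat.add_le_add_left (card_union_le _ _) _)
    omega
  have hX₀E : (X₀ : Set (Sym2 V)) ⊆ G.edgeSet := by
    rw [hX₀, coe_union, coe_union]
    refine Set.union_subset (fun e he => hP2 ?_) (Set.union_subset (pathE_edge γ 0 n hlen) ?_)
    · exact (mem_sdiff.1 (mem_coe.1 he)).1
    · intro e he
      rw [mem_coe, mem_biUnion] at he
      obtain ⟨j, hj, he⟩ := he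
      exact (hE1 j (mem_range.1 hj)).1 he
  have hjn : ∀ j < m, j * ℓ ≤ n := fun j hj => Nat.mul_le_mul_right _ hj.le
  have hX₀d : Disjoint X₀ (M ∪ B) := by
    rw [hX₀, disjoint_union_left, disjoint_union_left]
    refine ⟨?_, ?_, ?_⟩
    · rw [disjoint_union_right]
      exact ⟨sdiff_disjoint, hP3.mono_left sdiff_subset⟩
    · rw [Finset.disjoint_left]
      intro e he he'
      rw [pathE, mem_image] at he
      obtain ⟨k, hk, rfl⟩ := he
      rw [mem_Ico] at hk
      refine hfar' k (by omega) (γ.getVert k) (by simp) ?_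
      rw [mem_vert]
      exact ⟨_, he', by simp⟩
    · rw [Finset.disjoint_left]
      intro e he he'
      rw [mem_biUnion] at he
      obtain ⟨j, hj, he⟩ := he
      rw [mem_range] at hj
      induction e with
      | h x x' =>
        refine hfar' (j * ℓ) (hjn j hj) x ((hE1 j hj).2.2 _ he x (by simp)) ?_
        rw [mem_vert]
        exact ⟨_, he', by simp⟩
  obtain ⟨X, hXX, hXc, hXE, hXd⟩ := exists_move (edges_inf hP) X₀ (M ∪ B) p hX₀E
    (by exact_mod_cast hX₀d) hX₀c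
  have hXd' : Disjoint X (M ∪ B) := by exact_mod_cast hXd
  have hpX : pathE γ 0 n ⊆ X :=
    (subset_union_left.trans subset_union_right).trans hXX
  have hEX : ∀ j < m, E j ⊆ X := fun j hj =>
    ((subset_biUnion_of_mem E (mem_range.2 hj)).trans
      (subset_union_right.trans subset_union_right)).trans hXX
  have hreach : ∀ k ≤ n, (SimpleGraph.fromEdgeSet ((M ∪ X : Finset (Sym2 V)) :
      Set (Sym2 V))).Reachable v₀ (γ.getVert k) := by
    intro k hk
    refine (reach_mono ?_ hP4).trans ?_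
    · intro e he
      rw [mem_union] at he ⊢
      by_cases h : e ∈ M
      · exact Or.inl h
      · refine Or.inr (hXX ?_)
        rw [hX₀, mem_union, mem_sdiff]
        rcases he with he | he
        · exact absurd he h
        · exact Or.inl ⟨he, h⟩
    · have := pathE_reach γ 0 n hlen (M ∪ X) (hpX.trans subset_union_right) k (Nat.zero_le _) hk
      rwa [SimpleGraph.Walk.getVert_zero] at this
  refine ⟨X, hXc, hXE, hXd', ⟨s(γ.getVert 0, γ.getVert 1), ?_, γ.getVert 0, by simp,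
    hreach 0 (Nat.zero_le _)⟩, ?_⟩
  · refine hpX ?_
    rw [pathE, mem_image]
    exact ⟨0, mem_Ico.2 ⟨le_rfl, hn1⟩, rfl⟩
  intro Y hYc hYE hYd
  -- the structure beyond the point `i₀ ℓ`
  set M₂ : Finset (Sym2 V) := pathE γ (i₀ * ℓ) n ∪ (Ico i₀ m).biUnion E with hM₂
  set Γ : Finset V := (Icc (i₀ * ℓ) n).image γ.getVert with hΓd
  have hi₀ : i₀ * ℓ ≤ n := Nat.mul_le_mul_right _ c2'
  have hM₂X : M₂ ⊆ M ∪ X := by
    rw [hM₂]
    refine union_subset (((pathE_mono γ (Nat.zero_le _)).trans hpX).trans subset_union_right) ?_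
    intro e he
    rw [mem_biUnion] at he
    obtain ⟨j, hj, he⟩ := he
    exact mem_union_right _ (hEX j (mem_Ico.1 hj).2 he)
  have hΓ1 : ∀ x ∈ Γ, ∃ k, i₀ * ℓ ≤ k ∧ k ≤ n ∧ x = γ.getVert k := by
    intro x hx
    rw [hΓd, mem_image] at hx
    obtain ⟨k, hk, rfl⟩ := hx
    rw [mem_Icc] at hk
    exact ⟨k, hk.1, hk.2, rfl⟩
  have hΓ2 : ∀ k, i₀ * ℓ ≤ k → k ≤ n → γ.getVert k ∈ Γ := by
    intro k h1 h2
    exact mem_image_of_mem _ (mem_Icc.2 ⟨h1, h2⟩)
  set Z₁ := Z.filter fun z => ∃ k ≤ n, G.dist z (γ.getVert k) ≤ r₁ with hZ₁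
  have hZ₁' : ∀ x ∈ vert B, ∀ k ≤ n, G.dist (γ.getVert k) x ≤ r₁ → x ∈ Z₁ := by
    intro x hx k hk hkx
    have h1 := hconn.dist_triangle (u := y) (v := γ.getVert k) (w := x)
    have h2 := hyγ k hk
    rw [hZ₁, mem_filter, hZd, mem_inter, vert_union, mem_union, mem_bl hconn]
    refine ⟨⟨Or.inr hx, by omega⟩, k, hk, ?_⟩
    rwa [SimpleGraph.dist_comm]
  obtain ⟨NJ, nj1, nj2, nj3, nj4, nj5⟩ := grow hconn hP.deg (γ.getVert (i₀ * ℓ)) M₂ (B ∪ Y) Γ
    (by
      intro x hx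
      obtain ⟨k, hk1, hk2, rfl⟩ := hΓ1 x hx
      exact pathE_reach γ _ n hlen M₂ subset_union_left k hk1 hk2)
    R (q + d * b) g J
    (by
      intro x hx
      rw [mem_vert] at hx
      obtain ⟨e, he, hxe⟩ := hx
      rw [hM₂, mem_union, mem_biUnion] at he
      rcases he with he | ⟨j, hj, he⟩
      · obtain ⟨k, hk1, hk2, rfl⟩ := pathE_vert γ _ n e he x hxe
        exact ⟨_, hΓ2 k hk1 hk2, by simp⟩
      · rw [mem_Ico] at hj
        exact ⟨γ.getVert (j * ℓ), hΓ2 _ (Nat.mul_le_mul_right _ hj.1) (hjn j hj.2),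
          (hE1 j hj.2).2.2 e he x hxe⟩)
    (by
      intro S hSB hSn
      have h1 : S ⊆ Y ∪ Z₁.biUnion fun x => (G.neighborFinset x).image fun x' => s(x, x') := by
        intro e he
        rw [mem_union]
        by_cases heY : e ∈ Y
        · exact Or.inl heY
        · right
          have heB : e ∈ B := by
            rcases mem_union.1 (hSB he) with h | h
            · exact h
            · exact absurd h heY
          obtain ⟨x, hx, a', ha', hax⟩ := hSn e he
          obtain ⟨k, hk1, hk2, rfl⟩ := hΓ1 a' ha'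
          rw [mem_biUnion]
          refine ⟨x, hZ₁' x ?_ k hk2 (by omega), ?_⟩
          · rw [mem_vert]
            exact ⟨e, heB, hx⟩
          · rw [mem_image]
            obtain ⟨x', rfl⟩ := Sym2.mem_iff_exists.1 hx
            exact ⟨x', by simpa using hpos.2.1 (mem_coe.2 heB), rfl⟩
      refine (card_le_card h1).trans ((card_union_le _ _).trans ?_)
      rw [hYc]
      refine Nat.add_le_add_left ?_ _
      calc (Z₁.biUnion fun x => (G.neighborFinset x).image fun x' => s(x, x')).card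
          ≤ ∑ x ∈ Z₁, ((G.neighborFinset x).image fun x' => s(x, x')).card := card_biUnion_le
        _ ≤ ∑ _x ∈ Z₁, d := sum_le_sum fun x _ => card_image_le.trans (hP.deg x)
        _ = Z₁.card * d := by rw [sum_const, smul_eq_mul]
        _ ≤ b * d := Nat.mul_le_mul_right _ hfew.le
        _ = d * b := mul_comm _ _)
    (by
      intro W hW1 hW2
      refine c4.trans (hE2 i₀ c2' W ?_ ?_)
      · intro k hk1 hk2
        exact hW1 (hΓ2 k hk1 hk2)
      · intro j hj1 hj2 u u' huu hu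
        refine hW2 u u' ?_ hu
        rw [hM₂, mem_union, mem_biUnion]
        exact Or.inr ⟨j, mem_Ico.2 ⟨hj1, hj2⟩, huu⟩)
    J le_rfl
  have hYv : (vert Y).card ≤ 2 * q := by
    have := card_vert Y
    rwa [hYc] at this
  have hNJc : 4 * ((r₀ + 1) * (b + 2 * q)) ≤ NJ.card := by
    have h1 := c5.trans nj5
    rw [mul_comm] at h1
    exact Nat.le_of_mul_le_mul_left h1 (d_pos hP)
  have hNJR : ∀ x ∈ NJ, Rch G v₀ (M ∪ X) (B ∪ Y) J x := by
    intro x hx
    obtain ⟨P, h1, h2, h3, h4⟩ := nj4 x hx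
    refine ⟨P, h1, h2, h3, ?_⟩
    refine (reach_mono subset_union_left (hreach _ hi₀)).trans (reach_mono ?_ h4)
    exact union_subset_union hM₂X (Subset.refl _)
  obtain ⟨y₃, hy₃, N₀, e1, e2, e3⟩ := expand hP NJ (NJ.biUnion fun x => bl G x r₀)
    ⟨_, nj1 (hΓ2 n hi₀ le_rfl)⟩ r₀ (B ∪ Y)
    (fun x hx => subset_biUnion_of_mem (fun x => bl G x r₀) hx)
    (by
      refine le_trans ?_ hNJc
      refine Nat.mul_le_mul_left _ (Nat.mul_le_mul_left _ ?_)
      have h1 : vert (B ∪ Y) ∩ (NJ.biUnion fun x => bl G x r₀) ⊆ Z₁ ∪ vert Y := by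
        intro x hx
        rw [mem_inter, vert_union, mem_union, mem_biUnion] at hx
        rw [mem_union]
        rcases hx.1 with h | h
        · left
          obtain ⟨z, hz, hzx⟩ := hx.2
          rw [mem_bl hconn] at hzx
          obtain ⟨a', ha', haz⟩ := nj3 z hz
          obtain ⟨k, hk1, hk2, rfl⟩ := hΓ1 a' ha'
          refine hZ₁' x h k hk2 ?_
          have h5 := hconn.dist_triangle (u := γ.getVert k) (v := z) (w := x)
          omega
        · exact Or.inr h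
      refine (card_le_card h1).trans ((card_union_le _ _).trans ?_)
      omega)
  obtain ⟨a', ha', hay₃⟩ := nj3 y₃ hy₃
  obtain ⟨k, hk1, hk2, rfl⟩ := hΓ1 a' ha'
  have hyy₃ : G.dist y y₃ ≤ ρ + n + (R + J) := by
    have h1 := hconn.dist_triangle (u := y) (v := γ.getVert k) (w := y₃)
    have h2 := hyγ k hk2
    omega
  obtain ⟨y', N', f1, f2, f3, f4⟩ := double hP v₀ y (M ∪ X) (B ∪ Y) (bl G y (8 * p)) J r₀ ρ
    (8 * p) hr₀ y₃ N₀ e1 e2
    (by
      intro x hx
      obtain ⟨w, hw, hw'⟩ := e3 x hx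
      exact (hNJR y₃ hy₃).walk w hw hw')
    (fun x hx => (mem_bl hconn y x _).2 hx) (by omega)
    (by
      intro r hr1 hr2
      refine le_trans ?_ (c7 r hr1 hr2)
      refine Nat.mul_le_mul_left _ (Nat.mul_le_mul_left _ ?_)
      have h1 : vert (B ∪ Y) ∩ bl G y (8 * p) ⊆ Z ∪ vert Y := by
        intro x hx
        rw [mem_inter, vert_union, mem_union] at hx
        rw [mem_union, hZd, mem_inter, vert_union, mem_union]
        rcases hx.1 with h | h
        · exact Or.inl ⟨Or.inr h, hx.2⟩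
        · exact Or.inr h
      refine (card_le_card h1).trans ((card_union_le _ _).trans ?_)
      omega)
    ρ hr₀ρ le_rfl
  refine ⟨y', ⟨N', f1, f2, fun x hx => (f3 x hx).mono (Subset.refl _) c9⟩, ?_, ?_⟩
  · have h1 := hconn.dist_triangle (u := y') (v := y₃) (w := a)
    have h2 := hconn.dist_triangle (u := y₃) (v := γ.getVert k) (w := a)
    have h3 := hconn.dist_triangle (u := γ.getVert k) (v := y₂) (w := a)
    have h4 := hconn.dist_triangle (u := y₁) (v := y) (w := y₂)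
    have h5 := hconn.dist_triangle (u := y) (v := a) (w := y₂)
    have h6 := dist_getVert_end γ k
    have h7 := hN1 y₁ hy₁
    rw [SimpleGraph.dist_comm (u := y') (v := y₃)] at h1
    rw [SimpleGraph.dist_comm (u := y₃) (v := γ.getVert k)] at h2
    rw [SimpleGraph.dist_comm (u := y₂) (v := a)] at h3
    rw [SimpleGraph.dist_comm (u := y₁) (v := y)] at h4
    have h8 : G.dist y' a + i₀ * ℓ ≤ G.dist y a + (R + J + 6 * ρ) := by omega
    have h9 := Nat.mul_le_mul_left T h8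
    rw [mul_add, mul_add] at h9
    omega
  · have h1 := hconn.dist_triangle (u := y) (v := y₃) (w := y')
    have h2 : G.dist y y' ≤ n + R + J + 4 * ρ := by omega
    omega

end Pool.Agent.Helper22.PG.TurnAux
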