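import Pool.Agent.Helper56.PG.TurnD

/-! Volume estimates and asymptotics. -/

namespace Pool.Agent.Helper22.PG.TurnAux

open Finset Filter Pool.Agent.Helper30.Perc

variable {V : Type} [DecidableEq V] {G : SimpleGraph V} [G.LocallyFinite] {d K C : ℕ} {v : ℕ → ℕ}

lemma v_mono (hP : PolyG G d K C v) {r r' : ℕ} (h : r ≤ r') : v r ≤ v r' := by
  have := hP.inf
  obtain ⟨x⟩ : Nonempty V := inferInstance
  rw [← hP.vol x r, ← hP.vol x r']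
  refine card_le_card fun z hz => ?_
  rw [mem_bl hP.conn] at hz ⊢
  omega

lemma v_dbl (hP : PolyG G d K C v) (a r : ℕ) (hr : 1 ≤ r) : v (2 ^ a * r) ≤ K ^ a * v r := by
  induction a with
  | zero => simp
  | succ a ih =>
    have h1 := hP.dbl (2 ^ a * r) (Nat.mul_pos (by positivity) hr)
    calc v (2 ^ (a + 1) * r) = v (2 * (2 ^ a * r)) := by congr 1; ring
      _ ≤ K * v (2 ^ a * r) := h1
      _ ≤ K * (K ^ a * v r) := Nat.mul_le_mul_left _ ih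
      _ = K ^ (a + 1) * v r := by ring

lemma C_pos (hP : PolyG G d K C v) : 0 < C := by
  rcases Nat.eq_zero_or_pos C with h | h
  · have h1 := hP.gr 0 1 le_rfl
    have h2 := v_pos hP 1
    rw [h] at h1
    simp at h1
    omega
  · exact h

/-- cubic growth between any two radii -/
lemma v_ratio (hP : PolyG G d K C v) {r ρ : ℕ} (hr : 1 ≤ r) (h : r ≤ ρ) :
    ρ ^ 3 * v r ≤ 8 * C * r ^ 3 * v ρ := by
  set k := Nat.log 2 (ρ / r) with hk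
  have h0 : ρ / r ≠ 0 := by
    have := (Nat.one_le_div_iff (by omega : 0 < r)).2 h
    omega
  have h1 : 2 ^ k * r ≤ ρ := by
    have h2 : 2 ^ k ≤ ρ / r := Nat.pow_log_le_self 2 h0
    calc 2 ^ k * r ≤ ρ / r * r := Nat.mul_le_mul_right _ h2
      _ ≤ ρ := Nat.div_mul_le_self _ _
  have h3 : ρ ≤ 2 ^ (k + 1) * r := by
    have h2 : ρ / r < 2 ^ (k + 1) := Nat.lt_pow_succ_log_self (by norm_num) _
    have h4 : ρ / r + 1 ≤ 2 ^ (k + 1) := h2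
    have h5 : ρ < r * (ρ / r + 1) := Nat.lt_mul_div_succ ρ (by omega)
    calc ρ ≤ r * (ρ / r + 1) := h5.le
      _ ≤ r * 2 ^ (k + 1) := Nat.mul_le_mul_left _ h4
      _ = _ := by ring
  have h4 := hP.gr k r hr
  have h5 := v_mono hP h1
  calc ρ ^ 3 * v r ≤ (2 ^ (k + 1) * r) ^ 3 * v r := Nat.mul_le_mul_right _ (Nat.pow_le_pow_left h3 3)
    _ = 8 * r ^ 3 * (8 ^ k * v r) := by
        have : (8 : ℕ) ^ k = (2 ^ k) ^ 3 := by rw [← pow_mul, mul_comm, pow_mul]; norm_num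
        rw [this]
        ring
    _ ≤ 8 * r ^ 3 * (C * v (2 ^ k * r)) := Nat.mul_le_mul_left _ h4
    _ ≤ 8 * r ^ 3 * (C * v ρ) := Nat.mul_le_mul_left _ (Nat.mul_le_mul_left _ h5)
    _ = _ := by ring

lemma v_cubic (hP : PolyG G d K C v) {ρ : ℕ} (h : 1 ≤ ρ) : ρ ^ 3 ≤ 8 * C * v ρ := by
  have h1 := v_ratio hP le_rfl h
  have h2 := v_pos hP 1
  calc ρ ^ 3 ≤ ρ ^ 3 * v 1 := Nat.le_mul_of_pos_right _ h2
    _ ≤ _ := h1
    _ = _ := by ring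

lemma c7_aux (hP : PolyG G d K C v) (r L q : ℕ) (hr : 1 ≤ r) (h : 128 * C * (L + 2 * q) ≤ r ^ 2) :
    16 * ((2 * r + 1) * (L + 2 * q)) ≤ 3 * v r := by
  have h1 := v_cubic hP hr
  have h2 := C_pos hP
  have h3 : 8 * C * (16 * ((2 * r + 1) * (L + 2 * q))) ≤ 8 * C * (3 * v r) := by
    calc 8 * C * (16 * ((2 * r + 1) * (L + 2 * q)))
        = (2 * r + 1) * (128 * C * (L + 2 * q)) := by ring
      _ ≤ (3 * r) * (128 * C * (L + 2 * q)) := Nat.mul_le_mul_right _ (by omega)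
      _ ≤ (3 * r) * r ^ 2 := Nat.mul_le_mul_left _ h
      _ = 3 * r ^ 3 := by ring
      _ ≤ 3 * (8 * C * v r) := Nat.mul_le_mul_left _ h1
      _ = _ := by ring
  exact Nat.le_of_mul_le_mul_left h3 (by omega)

lemma c3_aux (hP : PolyG G d K C v) (n p r₁ b ρ R L a : ℕ) (h1 : 5 * p ≤ 2 ^ a * ρ)
    (hr₁ : 1 ≤ r₁) (hr : 2 * r₁ ≤ ρ) (hb : 1 ≤ b)
    (hA : 4 * (n + 1) * K ^ a * L * v (R + 2) * (8 * C) ≤ ρ ^ 3)
    (hB : 4 * (n + 1) * K ^ a * L * (64 * C * r₁ ^ 2) ≤ ρ ^ 3 * b) :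
    4 * ((n + 1) * v (5 * p) * (L * (v (R + 2) * (r₁ * b) + v (2 * r₁)))) <
      3 * v ρ * v ρ * (r₁ * b) := by
  have hρ : 1 ≤ ρ := by omega
  have hC := C_pos hP
  have h2 : v (5 * p) ≤ K ^ a * v ρ := (v_mono hP h1).trans (v_dbl hP a ρ hρ)
  have h3 : 4 * (n + 1) * K ^ a * L * v (R + 2) ≤ v ρ := by
    have h4 : 8 * C * (4 * (n + 1) * K ^ a * L * v (R + 2)) ≤ 8 * C * v ρ := by
      calc 8 * C * (4 * (n + 1) * K ^ a * L * v (R + 2))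
          = 4 * (n + 1) * K ^ a * L * v (R + 2) * (8 * C) := by ring
        _ ≤ ρ ^ 3 := hA
        _ ≤ _ := v_cubic hP hρ
    exact Nat.le_of_mul_le_mul_left h4 (by omega)
  have h4 : 4 * (n + 1) * K ^ a * L * v (2 * r₁) ≤ v ρ * (r₁ * b) := by
    have h5 := v_ratio hP (r := 2 * r₁) (by omega) hr
    have h6 : ρ ^ 3 * (4 * (n + 1) * K ^ a * L * v (2 * r₁)) ≤ ρ ^ 3 * (v ρ * (r₁ * b)) := by
      calc ρ ^ 3 * (4 * (n + 1) * K ^ a * L * v (2 * r₁))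
          = 4 * (n + 1) * K ^ a * L * (ρ ^ 3 * v (2 * r₁)) := by ring
        _ ≤ 4 * (n + 1) * K ^ a * L * (8 * C * (2 * r₁) ^ 3 * v ρ) := Nat.mul_le_mul_left _ h5
        _ = 4 * (n + 1) * K ^ a * L * (64 * C * r₁ ^ 2) * (r₁ * v ρ) := by ring
        _ ≤ ρ ^ 3 * b * (r₁ * v ρ) := Nat.mul_le_mul_right _ hB
        _ = _ := by ring
    exact Nat.le_of_mul_le_mul_left h6 (by positivity)
  have h5 : 0 < v ρ * v ρ * (r₁ * b) := by
    have := v_pos hP ρ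
    positivity
  calc 4 * ((n + 1) * v (5 * p) * (L * (v (R + 2) * (r₁ * b) + v (2 * r₁))))
      ≤ 4 * ((n + 1) * (K ^ a * v ρ) * (L * (v (R + 2) * (r₁ * b) + v (2 * r₁)))) :=
        Nat.mul_le_mul_left _ (Nat.mul_le_mul_right _ (Nat.mul_le_mul_left _ h2))
    _ = 4 * (n + 1) * K ^ a * L * v (R + 2) * (v ρ * (r₁ * b)) +
        v ρ * (4 * (n + 1) * K ^ a * L * v (2 * r₁)) := by ring
    _ ≤ v ρ * (v ρ * (r₁ * b)) + v ρ * (v ρ * (r₁ * b)) :=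
        Nat.add_le_add (Nat.mul_le_mul_right _ h3) (Nat.mul_le_mul_left _ h4)
    _ < 3 * v ρ * v ρ * (r₁ * b) := by nlinarith

lemma ev_sqrt (α β : ℝ) (hβ : 0 < β) :
    ∀ᶠ p : ℕ in atTop, α * ((Nat.sqrt p : ℝ) + 2) ≤ β * p := by
  rw [eventually_atTop]
  refine ⟨(⌈3 * |α| / β⌉₊ + 1) ^ 2, fun p hp => ?_⟩
  have h1 : ⌈3 * |α| / β⌉₊ + 1 ≤ Nat.sqrt p := by
    rw [Nat.le_sqrt']
    exact hp
  have h2 : 3 * |α| / β + 1 ≤ (Nat.sqrt p : ℝ) := by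
    have h3 := Nat.le_ceil (3 * |α| / β)
    have h4 : ((⌈3 * |α| / β⌉₊ : ℕ) : ℝ) + 1 ≤ Nat.sqrt p := by exact_mod_cast h1
    linarith
  have h5 : ((Nat.sqrt p : ℝ)) ^ 2 ≤ p := by exact_mod_cast Nat.sqrt_le' p
  have h6 : 0 ≤ 3 * |α| / β := by positivity
  have h7 : 3 * |α| ≤ β * Nat.sqrt p := by
    have : 3 * |α| / β ≤ (Nat.sqrt p : ℝ) := by linarith
    rw [div_le_iff₀ hβ] at this
    linarith
  have h8 : (1 : ℝ) ≤ Nat.sqrt p := by linarith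
  calc α * ((Nat.sqrt p : ℝ) + 2) ≤ |α| * ((Nat.sqrt p : ℝ) + 2) :=
        mul_le_mul_of_nonneg_right (le_abs_self α) (by linarith)
    _ ≤ |α| * (3 * (Nat.sqrt p : ℝ)) := mul_le_mul_of_nonneg_left (by linarith) (abs_nonneg α)
    _ = 3 * |α| * Nat.sqrt p := by ring
    _ ≤ β * Nat.sqrt p * Nat.sqrt p := mul_le_mul_of_nonneg_right h7 (by linarith)
    _ = β * (Nat.sqrt p : ℝ) ^ 2 := by ring
    _ ≤ β * p := mul_le_mul_of_nonneg_left h5 hβ.le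

lemma ev_lin (α β : ℝ) (hβ : 0 < β) : ∀ᶠ p : ℕ in atTop, α ≤ β * p := by
  rw [eventually_atTop]
  refine ⟨⌈|α| / β⌉₊, fun p hp => ?_⟩
  have h1 := Nat.le_ceil (|α| / β)
  have h2 : ((⌈|α| / β⌉₊ : ℕ) : ℝ) ≤ p := by exact_mod_cast hp
  have h3 : |α| / β ≤ p := h1.trans h2
  rw [div_le_iff₀ hβ] at h3
  linarith [le_abs_self α]

end Pool.Agent.Helper22.PG.TurnAux
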