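import Pool.Agent.Helper56.PG.TurnE

/-! Numerical lemmas for the choice of the parameters of a turn. -/

namespace Pool.Agent.Helper22.PG.TurnAux

lemma aux_sqrt {A S X : ℝ} (hA : 0 ≤ A) (h : A * (S + 2) ≤ X) : A * (S + 1) ≤ X := by
  nlinarith

lemma aux_delta {ε₁ ℓ s δ : ℝ} (hε₁ : 0 < ε₁) (hε₁2 : ε₁ ≤ 1 / 2) (hℓ : 1 ≤ ℓ) (hs : 64 * ℓ ≤ s)
    (h : δ * s = ε₁ * ℓ / 8) : δ ≤ 1 / 1024 ∧ δ ≤ ε₁ := by
  have hsp : 0 < s := by linarith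
  constructor
  · have h1 : δ * s ≤ 1 / 1024 * s := by
      rw [h]
      nlinarith
    exact le_of_mul_le_mul_right h1 hsp
  · have h1 : δ * s ≤ ε₁ * s := by
      rw [h]
      nlinarith
    exact le_of_mul_le_mul_right h1 hsp

lemma aux_m {P Δ s m : ℝ} (hP : 0 ≤ P) (hs : 4 * s ≤ P) (hΔ : Δ ≤ P / 1024) (hm : P - Δ < s * (m + 1)) :
    P ≤ 4 * s * m ∧ P / 2 - s ≤ m * s := by
  constructor <;> nlinarith

lemma aux_m2 {P δ Δ s m : ℝ} (hΔ : Δ ≤ δ * P) (hm : P - Δ < s * (m + 1)) :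
    P - δ * P - s ≤ m * s := by
  nlinarith

lemma aux_q {q s ε P C' : ℝ} (hq : 0 ≤ q) (hs : 1 ≤ s) (hε : 0 < ε) (hP : 0 ≤ P)
    (h : (q + ε * P) * s ≤ C' * P) : q * s + ε * P * s ≤ C' * P ∧ q ≤ C' * P := by
  have h0 : (q + ε * P) * s = q * s + ε * P * s := by ring
  have h1 : 0 ≤ ε * P * s := by positivity
  have h2 : q * 1 ≤ q * s := mul_le_mul_of_nonneg_left hs hq
  constructor <;> linarith

lemma aux_i {ε₁ m : ℝ} (h1 : ε₁ ≤ 1 / 2) (hm : 0 ≤ m) : ε₁ * m ≤ m := by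
  nlinarith

lemma aux_ml {m ℓ s Δ P : ℝ} (hm : 0 ≤ m) (hΔ : 0 ≤ Δ) (hs : 64 * ℓ ≤ s) (h : Δ + m * s ≤ P) :
    64 * (m * ℓ) ≤ P := by
  have := mul_le_mul_of_nonneg_left hs hm
  linarith

lemma aux_c4 {P s q d b g m i₀ C' ε ε₁ δ₁ : ℝ} (hs : 1 ≤ s) (hP : 0 ≤ P) (hC : 0 ≤ C')
    (hε : 0 < ε) (hε₁ : 0 < ε₁) (hε₁2 : ε₁ ≤ 1 / 2) (h16 : 16 * (C' + 1) * ε₁ ≤ ε) (hδ : 0 < δ₁)
    (hδε : δ₁ ≤ ε₁) (hm : P - δ₁ * P - s ≤ m * s) (hi : i₀ < ε₁ * m + 1)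
    (hq : q * s + ε * P * s ≤ C' * P) (hdb : d * b ≤ ε / 8 * P) (hg : g ≤ ε * P / 4)
    (h8 : 4 * C' ≤ ε / 4 * P) : q + d * b + g ≤ (m - i₀) * C' := by
  have hsp : 0 < s := by linarith
  have h3 : (1 - ε₁) * m - 1 ≤ m - i₀ := by linarith
  have h4 : ((1 - ε₁) * m - 1) * C' ≤ (m - i₀) * C' := mul_le_mul_of_nonneg_right h3 hC
  have h6 : (1 - ε₁) * (P - δ₁ * P - s) ≤ (1 - ε₁) * (m * s) :=
    mul_le_mul_of_nonneg_left hm (by linarith)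
  have h7 : P - 2 * ε₁ * P - s ≤ (1 - ε₁) * (P - δ₁ * P - s) := by
    have e1 : δ₁ * P ≤ ε₁ * P := mul_le_mul_of_nonneg_right hδε hP
    have e2 : 0 ≤ ε₁ * (δ₁ * P) := by positivity
    have e3 : 0 ≤ ε₁ * s := by positivity
    have e4 : (1 - ε₁) * (P - δ₁ * P - s) =
      P - δ₁ * P - s - ε₁ * P + ε₁ * (δ₁ * P) + ε₁ * s := by ring
    rw [e4]
    linarith
  have h8' : (P - 2 * ε₁ * P - s) * C' ≤ (1 - ε₁) * (m * s) * C' :=
    mul_le_mul_of_nonneg_right (h7.trans h6) hC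
  have h9 : 2 * ε₁ * P * C' ≤ ε / 8 * P := by
    have e1 : 2 * ε₁ * C' ≤ ε / 8 := by nlinarith
    have e2 := mul_le_mul_of_nonneg_right e1 hP
    linarith
  have h10 : (q + d * b + g) * s ≤ ((1 - ε₁) * m - 1) * C' * s := by
    have e1 : d * b + g ≤ 3 / 8 * (ε * P) := by linarith
    have e2 := mul_le_mul_of_nonneg_right e1 hsp.le
    have e3 : ε / 8 * P * 1 ≤ ε / 8 * P * s :=
      mul_le_mul_of_nonneg_left hs (by positivity)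
    have e4 : 2 * C' ≤ ε / 8 * P := by linarith
    have e5 := mul_le_mul_of_nonneg_right e4 hsp.le
    have e6 : 0 ≤ ε * P * s := by positivity
    have e7 : ((1 - ε₁) * m - 1) * C' * s = (1 - ε₁) * (m * s) * C' - s * C' := by ring
    have e8 : (P - 2 * ε₁ * P - s) * C' = C' * P - 2 * ε₁ * P * C' - s * C' := by ring
    rw [e7]
    rw [e8] at h8'
    have e9 : (q + d * b + g) * s = q * s + (d * b + g) * s := by ring
    rw [e9]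
    linarith
  have h11 := le_of_mul_le_mul_right h10 hsp
  linarith

lemma aux_c10 {T R A S ρ P E s c₂ δ₁ i₀ m ℓ ε₁ t : ℝ} (hT0 : 0 ≤ T) (hA : 0 ≤ A) (hE : E = ε₁ * ℓ)
    (hE0 : 0 < E) (hsp : 0 < s) (hP : 0 < P) (hc : c₂ = δ₁ / 16) (hδ : δ₁ * s = E / 8)
    (hρ : ρ ≤ c₂ * P) (ht : t = S + 1) (hR : 0 ≤ R) (hS : 0 ≤ S)
    (h12 : (R + A + E) * (S + 2) ≤ E / (4 * s) * P)
    (hT : 8 * s ≤ T * E) (hm : P / 2 - s ≤ m * s) (hi : ε₁ * m ≤ i₀) (hℓ : 0 ≤ ℓ) :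
    T * (R + A * t + 6 * ρ) + P ≤ T * (i₀ * ℓ) := by
  set Q : ℝ := P / s with hQ
  have hQ0 : 0 < Q := by positivity
  have hPQ : P = Q * s := by rw [hQ]; field_simp
  have h2 : 6 * ρ ≤ 6 / 128 * (E * Q) := by
    have e1 : c₂ * P = E * Q / 128 := by
      rw [hc, hPQ]
      have : δ₁ / 16 * (Q * s) = (δ₁ * s) * Q / 16 := by ring
      rw [this, hδ]
      ring
    linarith
  have h3 : R + A * t + E ≤ E * Q / 4 := by
    have e1 : E / (4 * s) * P = E * Q / 4 := by rw [hPQ]; field_simp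
    rw [e1] at h12
    rw [ht]
    have e2 : 0 ≤ (R + E) * (S + 1) := by positivity
    have e3 : R + A * (S + 1) + E = (R + A + E) * (S + 2) - (R + E) * (S + 1) - A := by ring
    rw [e3]
    linarith
  have h4 : P ≤ T * (E * Q / 8) := by
    have := mul_le_mul_of_nonneg_left hT hQ0.le
    have e1 : Q * (8 * s) = 8 * P := by rw [hPQ]; ring
    have e2 : Q * (T * E) = 8 * (T * (E * Q / 8)) := by ring
    rw [e1, e2] at this
    linarith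
  have h5 : Q / 2 - 1 ≤ m := by
    have e1 : (Q / 2 - 1) * s ≤ m * s := by
      have e2 : (Q / 2 - 1) * s = P / 2 - s := by rw [hPQ]; ring
      rw [e2]
      exact hm
    exact le_of_mul_le_mul_right e1 hsp
  have h6 : E * Q / 2 - E ≤ i₀ * ℓ := by
    have e1 : E * (Q / 2 - 1) ≤ E * m := mul_le_mul_of_nonneg_left h5 hE0.le
    have e2 : E * m = ε₁ * m * ℓ := by rw [hE]; ring
    have e3 : ε₁ * m * ℓ ≤ i₀ * ℓ := mul_le_mul_of_nonneg_right hi hℓ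
    linarith
  have h8 : R + A * t + 6 * ρ + E * Q / 8 ≤ i₀ * ℓ := by
    have : 0 < E * Q := by positivity
    linarith
  have h9 := mul_le_mul_of_nonneg_left h8 hT0
  rw [mul_add] at h9
  linarith

lemma aux_tR {A S X t : ℝ} (hA : 0 ≤ A) (ht : t = S + 1) (h : A * (S + 2) ≤ X) : A * t ≤ X := by
  rw [ht]; nlinarith

lemma aux_c9 {A S δ P ρ Δ c t : ℝ} (hA : 0 ≤ A) (hS : 0 ≤ S) (ht : t = S + 1) (hc : c = δ / 16)
    (hρ : ρ ≤ c * P) (hδ : 0 < δ * P) (h : (A + 1) * (S + 2) ≤ δ / 2 * P) (hΔ : δ * P < Δ + 1) :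
    A * t + 4 * ρ < Δ + 1 := by
  have h2 : 4 * ρ ≤ δ * P / 4 := by rw [hc] at hρ; linarith
  have h3 : A * t ≤ δ / 2 * P := by
    rw [ht]
    nlinarith
  linarith

lemma aux_c11 {m ℓ R A S t ρ P δ c : ℝ} (hA : 0 ≤ A) (hR : 0 ≤ R) (hS : 0 ≤ S) (hP : 0 ≤ P)
    (ht : t = S + 1)
    (hc : c = δ / 16) (hρ : ρ ≤ c * P) (hδ : δ ≤ 1 / 1024) (hm : 64 * (m * ℓ) ≤ P)
    (h : (R + A) * (S + 2) ≤ 1 / 64 * P) : 16 * (m * ℓ + R + A * t + 4 * ρ) ≤ P := by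
  have h2 : 64 * ρ ≤ P / 256 := by
    rw [hc] at hρ
    have := mul_le_mul_of_nonneg_right hδ hP
    linarith
  have h3 : R + A * t ≤ 1 / 64 * P := by
    rw [ht]
    nlinarith
  linarith

lemma aux_hA {n P W vv C c ρ : ℝ} (hn : n ≤ P) (hP : 0 ≤ P) (hW : 0 ≤ W) (hv : 0 ≤ vv) (hC : 0 ≤ C)
    (h3 : (c * P / 2) ^ 3 ≤ ρ ^ 3) (h : W * vv * C * 256 ≤ c ^ 3 * P) :
    32 * (n * (W * vv * C * P)) ≤ ρ ^ 3 := by
  calc 32 * (n * (W * vv * C * P))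
      ≤ 32 * (P * (W * vv * C * P)) := by
        refine mul_le_mul_of_nonneg_left ?_ (by norm_num)
        exact mul_le_mul_of_nonneg_right hn (by positivity)
    _ = (W * vv * C * 256) * P ^ 2 / 8 := by ring
    _ ≤ (c ^ 3 * P) * P ^ 2 / 8 := by
        have := mul_le_mul_of_nonneg_right h (sq_nonneg P)
        linarith
    _ = (c * P / 2) ^ 3 := by ring
    _ ≤ _ := h3

lemma aux_hB {n P W C D c ε₂ ρ b t : ℝ} (hn : n ≤ P) (hP : 0 ≤ P) (hW : 0 ≤ W)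
    (hC : 0 ≤ C) (hε : 0 ≤ ε₂) (h3 : (c * P / 2) ^ 3 ≤ ρ ^ 3) (hb : ε₂ * P / 2 ≤ b)
    (ht : t ^ 2 ≤ 4 * P) (hρ : 0 ≤ ρ) (h : W * C * D ^ 2 * 16384 ≤ c ^ 3 * ε₂ * P) :
    256 * (n * ((W * C * D ^ 2 * P) * t ^ 2)) ≤ ρ ^ 3 * b := by
  calc 256 * (n * ((W * C * D ^ 2 * P) * t ^ 2))
      ≤ 256 * (P * ((W * C * D ^ 2 * P) * (4 * P))) := by
        refine mul_le_mul_of_nonneg_left ?_ (by norm_num)
        refine mul_le_mul hn ?_ (by positivity) (by positivity)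
        exact mul_le_mul_of_nonneg_left ht (by positivity)
    _ = (W * C * D ^ 2 * 16384) * P ^ 3 / 16 := by ring
    _ ≤ (c ^ 3 * ε₂ * P) * P ^ 3 / 16 := by
        have := mul_le_mul_of_nonneg_right h (show (0 : ℝ) ≤ P ^ 3 by positivity)
        linarith
    _ = (c * P / 2) ^ 3 * (ε₂ * P / 2) := by ring
    _ ≤ ρ ^ 3 * b := mul_le_mul h3 hb (by positivity) (by positivity)

lemma aux_c5 {a₀ t b q ε₂ C' P d A ε g : ℝ} (h2 : 1 ≤ a₀ * t) (ht : 0 ≤ t)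
    (hb : b ≤ ε₂ * P) (hb0 : 0 ≤ b)
    (hq : q ≤ C' * P) (hq0 : 0 ≤ q) (hd : 0 ≤ d) (hP : 0 ≤ P)
    (hA0 : 0 ≤ A)
    (hA : 64 * a₀ * (ε₂ + 2 * C') * d ≤ A * ε) (hg : ε * P / 8 ≤ g) :
    4 * ((a₀ * t + 1) * (b + 2 * q)) * d ≤ A * t * g := by
  have h3 : b + 2 * q ≤ (ε₂ + 2 * C') * P := by linarith
  have h4 : (a₀ * t + 1) * (b + 2 * q) ≤ (2 * (a₀ * t)) * ((ε₂ + 2 * C') * P) :=
    mul_le_mul (by linarith) h3 (by positivity) (by positivity)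
  calc 4 * ((a₀ * t + 1) * (b + 2 * q)) * d
      ≤ 4 * ((2 * (a₀ * t)) * ((ε₂ + 2 * C') * P)) * d :=
        mul_le_mul_of_nonneg_right (mul_le_mul_of_nonneg_left h4 (by norm_num)) hd
    _ = (64 * a₀ * (ε₂ + 2 * C') * d) * (t * P / 8) := by ring
    _ ≤ (A * ε) * (t * P / 8) := mul_le_mul_of_nonneg_right hA (by positivity)
    _ = (A * t) * (ε * P / 8) := by ring
    _ ≤ (A * t) * g := mul_le_mul_of_nonneg_left hg (by positivity)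

end Pool.Agent.Helper22.PG.TurnAux
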